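import Pool.Agent.T6.H73.ThR.Bridge

/-!
# The continuous theory of the hyperfinite II_1 factor is not simple

Idea. In `R` let `a_k` be the unitary `diag(1, -1)` in the `k`-th tensor factor. Finitely supported
permutations of the tensor factors are implemented by unitaries of `R`, so the value of a formula at
`a_{k_1}, …, a_{k_n}` does not depend on the choice of the different indices. Let `p_x`, `q_{x,k}`
(`x < ω₁`, `k < ω`) be a family in a saturated model whose finite subfamilies have the limit type of
such families. The rows `(q_{x,k})_k` are indiscernible over the rest of the family. There is a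
unitary `u` with `u p_x u* = q_{x,0}` for all `x`, but none with `u p_x u* = q_{x,0}` and
`u p_x u* = q_{x,1}`. So the type of `u` over the set `B` of all `p_x`, `q_{x,0}` divides over every
subset of `B` which misses some `q_{x,0}`, and separable subsets of `B` are countable because the
elements of the family have distance `√2`.
-/

set_option autoImplicit false

namespace Pool.Agent.Results.MP_baa3fb_lc.NotSimple

open Pool.Agent.T6.H73.ThR

/-- **Negative answer to Q1.**
(1) Let `R` be the hyperfinite II_1 factor and let `C` be any `ℵ₂`-saturated model of `Th(R)` (for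
example a monster model). Then there are a set `B` of at most `ℵ₁` elements of `C` and an element
`a` of the unit ball of `C` such that the type `tp(a / B)` divides over every separable subset of
`B`. So `Th(R)` is not simple.
(2) The same holds for every tracial von Neumann algebra `M` that contains a sequence of pairwise
commuting unital copies of the `2 × 2` matrices instead of `R`. -/
theorem result :
    (∀ R C : Str, R.IsHyperfinite → C.IsTVN → C.ElemEq R → C.IsSaturated (Cardinal.aleph 2) →
      ∃ (B : Set C.carrier) (a : C.carrier), Cardinal.mk B ≤ Cardinal.aleph 1 ∧ C.nrm a ≤ 1 ∧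
        ∀ A ⊆ B, C.IsSeparableSet A → C.Divides a B A) ∧
    (∀ M C : Str, M.IsTVN → (∃ e, M.IsCommutingUnits e) → C.IsTVN → C.ElemEq M →
      C.IsSaturated (Cardinal.aleph 2) →
      ∃ (B : Set C.carrier) (a : C.carrier), Cardinal.mk B ≤ Cardinal.aleph 1 ∧ C.nrm a ≤ 1 ∧
        ∀ A ⊆ B, C.IsSeparableSet A → C.Divides a B A) := by
  refine ⟨?_, ?_⟩
  · rintro R C ⟨hR, e, he, -⟩ hC hE hsat
    exact main' R C hR hC ⟨e, he⟩ hE hsat
  · rintro M C hM he hC hE hsat
    exact main' M C hM hC he hE hsat

end Pool.Agent.Results.MP_baa3fb_lc.NotSimple
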